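import Pool.Agent.Q297.Ontology

/-!
# Ishimoto's propositional ontology `L₁` embeds in `S4.2`
-/

namespace Pool.Agent.Results.MP_c90ce4_lc.EmbedsInS42

open Pool.Agent.Q297.Ontology

/-- The axioms `□p → p`, `□p → □□p` and `◇□p → □◇p`. -/
def s42Axioms : Set MForm :=
  {.imp (.box (.var 0)) (.var 0), .imp (.box (.var 0)) (.box (.box (.var 0))),
    .imp (.dia (.box (.var 0))) (.box (.dia (.var 0)))}

/-- The logic `S4.2`: the smallest normal modal logic containing the three axioms. -/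
def S42 : MForm → Prop := Normal s42Axioms

/-- **Positive answer to Q1 of MP_c90ce4_lc.**  There is a modal formula `χ(p, q)` in two
variables such that the translation `T_χ` is faithful (and sound) for `S4.2`, i.e. `L₁` embeds
in `S4.2`; here `χ(p, q) = p ∧ ((q ∧ □(p ↔ q)) ∨ (¬ q ∧ ◇(p ∧ q)))`. -/
theorem result : ∃ χ : MForm, χ.vars ⊆ {0, 1} ∧ Embeds χ S42 := by
  refine ⟨theF, vars_theF, embeds ?_⟩
  rintro φ (rfl | rfl | rfl) V w
  · rw [sat_imp]
    exact fun h => h w (Fan.le_refl w)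
  · rw [sat_imp]
    exact fun h u hu v hv => h v (Fan.le_trans hu hv)
  · rw [sat_imp, sat_dia]
    rintro ⟨u, _, hu⟩ v _
    rw [sat_dia]
    exact ⟨.top, Fan.le_top v, hu .top (Fan.le_top u)⟩

end Pool.Agent.Results.MP_c90ce4_lc.EmbedsInS42
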